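import Pool.Agent.Q191.CZ.Defs

/-!
# Elementary lemmas on positive elements of C*-algebras
-/

set_option autoImplicit false

open scoped Pointwise

namespace Pool.Agent.Q191.CZ

section
variable {D : Type*} [CStarAlgebra D] [PartialOrder D] [StarOrderedRing D]

theorem conj_mono {x y : D} (h : x ≤ y) (c : D) : c * x * star c ≤ c * y * star c := by
  have := star_left_conjugate_le_conjugate h (star c)
  simpa using this

theorem ge_sub_norm {x y : D} (hx : IsSelfAdjoint x) (hy : IsSelfAdjoint y) {η : ℝ}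
    (h : ‖y - x‖ ≤ η) : x - algebraMap ℝ D η ≤ y := by
  have h1 : IsSelfAdjoint (x - y) := hx.sub hy
  have h2 := h1.le_algebraMap_norm_self
  have h3 : algebraMap ℝ D ‖x - y‖ ≤ algebraMap ℝ D η := by
    rw [norm_sub_rev] at h
    exact algebraMap_mono D h
  have h4 : x - y ≤ algebraMap ℝ D η := h2.trans h3
  exact sub_le_comm.1 h4

/-- If `A₀` is a nonzero positive element, there are `k`, a nonzero positive `d` and `η > 0` with
`d ≤ k A k*` for all positive `A` with `‖A - A₀‖ ≤ η`. -/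
theorem sandwich {A0 : D} (h0 : 0 ≤ A0) (hne : A0 ≠ 0) : ∃ (k d : D) (η : ℝ), 0 < η ∧ 0 ≤ d ∧
    d ≠ 0 ∧ ∀ A : D, 0 ≤ A → ‖A - A0‖ ≤ η → d ≤ k * A * star k := by
  have hpos : 0 < ‖A0‖ := norm_pos_iff.2 hne
  have hsa : IsSelfAdjoint A0 := IsSelfAdjoint.of_nonneg h0
  set η : ℝ := ‖A0‖ / 2 with hη
  have hηpos : 0 < η := by positivity
  set T : D := A0 - algebraMap ℝ D η with hT
  have hTsa : IsSelfAdjoint T := hsa.sub (IsSelfAdjoint.algebraMap D (by rfl))
  have hk : 0 ≤ T⁺ := CFC.posPart_nonneg T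
  have hksa : IsSelfAdjoint (T⁺) := IsSelfAdjoint.of_nonneg hk
  have hsplit : T⁺ - T⁻ = T := CFC.posPart_sub_negPart T hTsa
  have hmul : T⁺ * T⁻ = 0 := CFC.posPart_mul_negPart T
  have hd : T⁺ * T * star (T⁺) = T⁺ * T⁺ * star (T⁺) := by
    congr 1
    nth_rewrite 2 [← hsplit]
    rw [mul_sub, hmul, sub_zero]
  refine ⟨T⁺, T⁺ * T * star (T⁺), η, hηpos, ?_, ?_, ?_⟩
  · rw [hd]
    have := conj_mono hk (T⁺)
    simpa using this
  · rw [hd, hksa.star_eq]
    intro hz
    have h4 : T⁺ ^ 2 ^ 2 = 0 := by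
      have : T⁺ ^ 2 ^ 2 = (T⁺ * T⁺ * T⁺) * T⁺ := by
        rw [show (2 : ℕ) ^ 2 = 3 + 1 from rfl, pow_succ, pow_succ, pow_succ, pow_one]
      rw [this, hz, zero_mul]
    have h5 := hksa.nnnorm_pow_two_pow 2
    rw [h4, nnnorm_zero] at h5
    have h6 : T⁺ = 0 := by
      have : ‖T⁺‖₊ = 0 := pow_eq_zero_iff (by norm_num) |>.1 h5.symm
      exact nnnorm_eq_zero.1 this
    have h7 : T ≤ 0 := (CFC.posPart_eq_zero_iff T hTsa).1 h6
    have h8 : A0 ≤ algebraMap ℝ D η := by
      rw [hT, sub_nonpos] at h7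
      exact h7
    have h9 : ‖A0‖ ≤ η := (CStarAlgebra.norm_le_iff_le_algebraMap A0 hηpos.le h0).2 h8
    linarith
  · intro A hA hn
    exact conj_mono (ge_sub_norm hsa (IsSelfAdjoint.of_nonneg hA) hn) _

/-- In a simple unital C*-algebra every nonzero positive `b` is full: `2 ≤ ∑ r b r*`. -/
theorem full_sum [IsSimpleRing D] {b : D} (hb : 0 ≤ b) (hne : b ≠ 0) :
    ∃ l : List D, (2 : D) ≤ (l.map fun r => r * b * star r).sum := by
  have h1 : (1 : D) ∈ TwoSidedIdeal.span {b} :=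
    IsSimpleRing.one_mem_of_ne_zero_mem _ hne (TwoSidedIdeal.subset_span rfl)
  rw [TwoSidedIdeal.mem_span_iff_mem_addSubgroup_closure] at h1
  have key : ∀ z ∈ AddSubgroup.closure ((Set.univ : Set D) * ({b} : Set D) * (Set.univ : Set D)),
      (∃ l : List D, z + star z ≤ (l.map fun r => r * b * star r).sum) ∧
        (∃ l : List D, -z + star (-z) ≤ (l.map fun r => r * b * star r).sum) := by
    intro z hz
    have gen : ∀ x y : D, ∃ l : List D,
        x * b * y + star (x * b * y) ≤ (l.map fun r => r * b * star r).sum := by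
      intro x y
      refine ⟨[x, star y], ?_⟩
      have h2 : 0 ≤ (x - star y) * b * star (x - star y) := by
        have := conj_mono hb (x - star y)
        simpa using this
      have hbs : star b = b := (IsSelfAdjoint.of_nonneg hb).star_eq
      rw [← sub_nonneg]
      refine h2.trans (le_of_eq ?_)
      simp only [List.map_cons, List.map_nil, List.sum_cons, List.sum_nil, star_mul, star_sub,
        star_star, hbs]
      noncomm_ring
    induction hz using AddSubgroup.closure_induction with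
    | mem z hz =>
      obtain ⟨z1, ⟨x, _, b', hb', rfl⟩, y, _, rfl⟩ := hz
      rw [Set.mem_singleton_iff] at hb'
      subst hb'
      refine ⟨gen x y, ?_⟩
      obtain ⟨l, hl⟩ := gen (-x) y
      refine ⟨l, ?_⟩
      have e : -(x * b' * y) = -x * b' * y := by noncomm_ring
      simp only
      rw [e]
      exact hl
    | zero => exact ⟨⟨[], by simp⟩, ⟨[], by simp⟩⟩
    | add z w _ _ hz hw =>
      obtain ⟨⟨l1, h1⟩, l2, h2⟩ := hz
      obtain ⟨⟨m1, k1⟩, m2, k2⟩ := hw
      refine ⟨⟨l1 ++ m1, ?_⟩, ⟨l2 ++ m2, ?_⟩⟩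
      · rw [List.map_append, List.sum_append]
        refine le_trans (le_of_eq ?_) (add_le_add h1 k1)
        rw [star_add]; abel
      · rw [List.map_append, List.sum_append]
        refine le_trans (le_of_eq ?_) (add_le_add h2 k2)
        rw [star_neg, star_neg, star_neg, star_add]; abel
    | neg z _ hz =>
      refine ⟨hz.2, ?_⟩
      simpa using hz.1
  obtain ⟨⟨l, hl⟩, _⟩ := key 1 h1
  refine ⟨l, ?_⟩
  rw [star_one, one_add_one_eq_two] at hl
  exact hl

/-- `c ≥ 1` can be normalised to `1`. -/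
theorem normalise {c : D} (h : 1 ≤ c) : ∃ q : D, q * c * star q = 1 := by
  have h0 : (0 : D) ≤ 1 := zero_le_one
  have hc : 0 ≤ c := h0.trans h
  have hu : IsUnit c := CStarAlgebra.isUnit_of_le 1 h
  have hs : IsStrictlyPositive c := ⟨hc, hu⟩
  refine ⟨c ^ (-(1 / 2) : ℝ), ?_⟩
  have h1 : star (c ^ (-(1 / 2) : ℝ)) = c ^ (-(1 / 2) : ℝ) :=
    (IsSelfAdjoint.of_nonneg CFC.rpow_nonneg).star_eq
  rw [h1]
  exact CFC.conjugate_rpow_neg_one_half c hs

end

/-- A selfadjoint element close to `1` can be normalised to `1`. -/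
theorem normalise' {A : Type*} [CStarAlgebra A] {c : A} (hc : IsSelfAdjoint c)
    (h : ‖c - 1‖ ≤ 1 / 2) : ∃ q : A, q * c * star q = 1 := by
  let _ : PartialOrder A := CStarAlgebra.spectralOrder A
  have _ : StarOrderedRing A := CStarAlgebra.spectralOrderedRing A
  have h1 : (1 : A) - algebraMap ℝ A (1 / 2) ≤ c := ge_sub_norm (IsSelfAdjoint.one A) hc h
  have h2 : (1 : A) ≤ (2 : ℝ) • c := by
    have h3 : (2 : ℝ) • ((1 : A) - algebraMap ℝ A (1 / 2)) ≤ (2 : ℝ) • c :=
      smul_le_smul_of_nonneg_left h1 (by norm_num)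
    refine le_trans (le_of_eq ?_) h3
    rw [Algebra.algebraMap_eq_smul_one, smul_sub, smul_smul]
    norm_num
    rw [two_smul]
    abel
  obtain ⟨q, hq⟩ := normalise h2
  refine ⟨Real.sqrt 2 • q, ?_⟩
  have h4 : star (Real.sqrt 2 • q) = Real.sqrt 2 • star q := by
    rw [star_smul]; simp
  rw [h4, smul_mul_assoc, smul_mul_assoc, mul_smul_comm, smul_smul, Real.mul_self_sqrt (by norm_num)]
  rw [mul_smul_comm, smul_mul_assoc] at hq
  exact hq

end Pool.Agent.Q191.CZ
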