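import Mathlib

/-!
# Cuntz subequivalence and pseudoperiodic sets of automorphisms
-/

set_option autoImplicit false

namespace Pool.Agent.Q191.CZ

/-- Cuntz subequivalence `a ≾ b`: there are `r_n` with `‖r_n b r_n* - a‖ → 0`. -/
def CuntzLE {A : Type*} [NormedRing A] [StarRing A] (a b : A) : Prop :=
  ∀ ε : ℝ, 0 < ε → ∃ r : A, ‖r * b * star r - a‖ < ε

/-- A set `S` of automorphisms of `D` is pseudoperiodic: for every nonzero positive `a` there is a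
nonzero positive `b` with `b ≾ β(a)` for all `β ∈ S ∪ {id}`. -/
def Pseudoperiodic {D : Type*} [CStarAlgebra D] [PartialOrder D] (S : Set (D ≃⋆ₐ[ℂ] D)) : Prop :=
  ∀ a : D, 0 ≤ a → a ≠ 0 → ∃ b : D, 0 ≤ b ∧ b ≠ 0 ∧ CuntzLE b a ∧ ∀ β ∈ S, CuntzLE b (β a)

/-- The function `x ↦ f(x) 1_D`, for a real function `f`. -/
noncomputable def scal {X D : Type*} [TopologicalSpace X] [CStarAlgebra D] (f : C(X, ℝ)) :
    C(X, D) :=
  ⟨fun x => algebraMap ℝ D (f x), (continuous_algebraMap ℝ D).comp f.continuous⟩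

/-- Every orbit is dense. -/
def MinimalAction (G X : Type*) [TopologicalSpace X] [Group G] [MulAction G X] : Prop :=
  ∀ x : X, Dense (MulAction.orbit G x)

/-- The fibre automorphisms `α_{g,x}` form a pseudoperiodic set. -/
def PseudoGen {G X D : Type*} [CStarAlgebra D] [PartialOrder D]
    (al : G → X → (D ≃⋆ₐ[ℂ] D)) : Prop :=
  Pseudoperiodic {β : D ≃⋆ₐ[ℂ] D | ∃ g x, β = al g x}

/-- `α_g(a)(x) = α_{g,x}(a(g⁻¹x))`. -/
def LiesOver {G X D : Type*} [TopologicalSpace X] [CompactSpace X] [Group G] [MulAction G X]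
    [CStarAlgebra D] (al : G → X → (D ≃⋆ₐ[ℂ] D)) (α : G → (C(X, D) ≃⋆ₐ[ℂ] C(X, D))) : Prop :=
  ∀ (g : G) (a : C(X, D)) (x : X), α g a x = al g x (a (g⁻¹ • x))

/-- `u_g π(a) u_g* = π(α_g(a))`. -/
def Covariant {G A B : Type*} [Group G] [CStarAlgebra A] [CStarAlgebra B]
    (α : G → (A ≃⋆ₐ[ℂ] A)) (π : A →⋆ₐ[ℂ] B) (u : G →* unitary B) : Prop :=
  ∀ (g : G) (a : A), (u g : B) * π a * star (u g : B) = π (α g a)

/-- There is a nonzero continuous `f ≥ 0` on `X` with `ι(f) ≾ ι(a)`. -/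
def FunctionBelow {X D B : Type*} [TopologicalSpace X] [CStarAlgebra D] [NormedRing B]
    [StarRing B] (ι : C(X, D) → B) (a : C(X, D)) : Prop :=
  ∃ f : C(X, ℝ), (∀ x, 0 ≤ f x) ∧ f ≠ 0 ∧ CuntzLE (ι (scal f)) (ι a)

end Pool.Agent.Q191.CZ
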