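import Mathlib

/-!
# Minimal actions on infinite compact spaces
-/

set_option autoImplicit false

namespace Pool.Agent.Q191.CZ

theorem orbit_inter_infinite {X G : Type*} [TopologicalSpace X] [T2Space X] [CompactSpace X]
    [Infinite X] [Group G] [MulAction G X] [ContinuousConstSMul G X]
    (hmin : ∀ x : X, Dense (MulAction.orbit G x)) (x : X) {U : Set X} (hU : IsOpen U)
    (hne : U.Nonempty) : (MulAction.orbit G x ∩ U).Infinite := by
  by_contra hfin
  rw [Set.not_infinite] at hfin
  have hsub : U ⊆ MulAction.orbit G x ∩ U := by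
    intro y hy
    by_contra hy'
    have hopen : IsOpen (U \ (MulAction.orbit G x ∩ U)) := hU.sdiff hfin.isClosed
    obtain ⟨z, hz1, hz2⟩ := (hmin x).inter_open_nonempty _ hopen ⟨y, hy, hy'⟩
    exact hz1.2 ⟨hz2, hz1.1⟩
  have hUfin : U.Finite := hfin.subset hsub
  obtain ⟨v, hv⟩ := hne
  have hvo : IsOpen ({v} : Set X) := by
    have e : ({v} : Set X) = U \ (U \ {v}) := by
      ext y
      simp only [Set.mem_singleton_iff, Set.mem_diff]
      constructor
      · rintro rfl
        exact ⟨hv, fun h => h.2 rfl⟩
      · rintro ⟨h1, h2⟩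
        by_contra h3
        exact h2 ⟨h1, h3⟩
    rw [e]
    exact hU.sdiff (hUfin.subset Set.sdiff_subset).isClosed
  have hall : ∀ y : X, IsOpen ({y} : Set X) := by
    intro y
    obtain ⟨z, hz1, hz2⟩ := (hmin y).inter_open_nonempty _ hvo ⟨v, rfl⟩
    obtain ⟨g, rfl⟩ := hz2
    have e : ({y} : Set X) = (fun x => g • x) ⁻¹' {v} := by
      ext w
      simp only [Set.mem_singleton_iff, Set.mem_preimage]
      have hz1' : g • y = v := hz1
      constructor
      · rintro rfl; exact hz1'
      · intro h
        rw [← hz1'] at h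
        exact smul_left_cancel g h
    rw [e]
    exact hvo.preimage (continuous_const_smul g)
  have hd : DiscreteTopology X := discreteTopology_iff_isOpen_singleton.2 hall
  have : Finite X := finite_of_compact_of_discrete
  exact not_finite X

theorem exists_moves {X G ι : Type*} [TopologicalSpace X] [T2Space X] [CompactSpace X]
    [Infinite X] [Group G] [MulAction G X] [ContinuousConstSMul G X] [Fintype ι]
    (hmin : ∀ x : X, Dense (MulAction.orbit G x)) (x : X) {U : Set X} (hU : IsOpen U)
    (hne : U.Nonempty) : ∃ g : ι → G, (∀ i, g i • x ∈ U) ∧ ∀ i j, i ≠ j → g i • x ≠ g j • x := by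
  have hinf := orbit_inter_infinite hmin x hU hne
  let e : ι ↪ (MulAction.orbit G x ∩ U : Set X) :=
    (Fintype.equivFin ι).toEmbedding.trans (Fin.valEmbedding.trans (hinf.natEmbedding _))
  have h : ∀ i, ∃ g : G, g • x = (e i : X) := fun i => (e i).2.1
  choose g hg using h
  refine ⟨g, fun i => by rw [hg]; exact (e i).2.2, fun i j hij h => hij ?_⟩
  rw [hg, hg] at h
  exact e.injective (Subtype.ext h)

end Pool.Agent.Q191.CZ
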