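import Pool.Agent.Q191.CZ.Main

/-!
# The one-point space
-/

set_option autoImplicit false

open scoped Matrix.Norms.L2Operator MatrixOrder

namespace Pool.Agent.Q191.CZ

theorem one_point : ∃ (D : Type) (_ : CStarAlgebra D) (_ : PartialOrder D) (_ : StarOrderedRing D)
    (_ : IsSimpleRing D) (a : C(PUnit.{1}, D)), (∀ x, 0 ≤ a x) ∧ a ≠ 0 ∧
      ∀ f : C(PUnit.{1}, ℝ), (∀ x, 0 ≤ f x) → f ≠ 0 → ¬ CuntzLE (scal f) a := by
  refine ⟨Matrix (Fin 2) (Fin 2) ℂ, inferInstance, inferInstance, inferInstance, inferInstance,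
    ContinuousMap.const _ !![1, 0; 0, 0], ?_, ?_, ?_⟩
  · intro x
    have e : (!![1, 0; 0, 0] : Matrix (Fin 2) (Fin 2) ℂ) =
        star (!![1, 0; 0, 0] : Matrix (Fin 2) (Fin 2) ℂ) * !![1, 0; 0, 0] := by
      ext i j
      fin_cases i <;> fin_cases j <;>
        simp [Matrix.mul_apply, Fin.sum_univ_two, Matrix.star_apply]
    rw [ContinuousMap.const_apply, e]
    exact star_mul_self_nonneg _
  · intro h
    have h1 := congrArg (fun a : C(PUnit.{1}, Matrix (Fin 2) (Fin 2) ℂ) => a PUnit.unit 0 0) h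
    simp at h1
  · intro f _ hf hC
    have hf0 : f PUnit.unit ≠ 0 := by
      intro h0
      exact hf (ContinuousMap.ext fun x => by cases x; exact h0)
    have hu : IsUnit (algebraMap ℝ (Matrix (Fin 2) (Fin 2) ℂ) (f PUnit.unit)) :=
      (IsUnit.mk0 _ hf0).map _
    obtain ⟨ε, hε, hball⟩ := Metric.isOpen_iff.1
      (Units.isOpen (R := Matrix (Fin 2) (Fin 2) ℂ)) _ hu
    obtain ⟨r, hr⟩ := hC ε hε
    have h1 : ‖(r * ContinuousMap.const _ !![1, 0; 0, 0] * star r - scal f :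
        C(PUnit.{1}, Matrix (Fin 2) (Fin 2) ℂ)) PUnit.unit‖ < ε :=
      lt_of_le_of_lt (ContinuousMap.norm_coe_le_norm _ _) hr
    have h2 : r PUnit.unit * !![1, 0; 0, 0] * star (r PUnit.unit) ∈
        Metric.ball (algebraMap ℝ (Matrix (Fin 2) (Fin 2) ℂ) (f PUnit.unit)) ε := by
      rw [mem_ball_iff_norm]
      exact h1
    have h3 : IsUnit (r PUnit.unit * !![1, 0; 0, 0] * star (r PUnit.unit)) := hball h2
    rw [Matrix.isUnit_iff_isUnit_det, Matrix.det_mul, Matrix.det_mul] at h3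
    simp [Matrix.det_fin_two] at h3

end Pool.Agent.Q191.CZ
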