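import Pool.Agent.Q191.CZ.Alg
import Pool.Agent.Q191.CZ.Dyn

/-!
# Functions on `X` below positive elements of `C(X, D)` in crossed products
-/

set_option autoImplicit false

open Filter Topology

namespace Pool.Agent.Q191.CZ

section
variable {X D : Type*} [TopologicalSpace X] [CompactSpace X] [CStarAlgebra D]

theorem scal_apply (f : C(X, ℝ)) (x : X) : (scal f : C(X, D)) x = algebraMap ℝ D (f x) := rfl

theorem scal_comm (f : C(X, ℝ)) (a : C(X, D)) : scal f * a = a * scal f := by
  ext x
  simp only [ContinuousMap.mul_apply, scal_apply]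
  exact Algebra.commutes _ _

theorem scal_star (f : C(X, ℝ)) : star (scal f : C(X, D)) = scal f := by
  ext x
  rw [ContinuousMap.star_apply, scal_apply]
  exact (IsSelfAdjoint.algebraMap D (by rfl : IsSelfAdjoint (f x))).star_eq

end

theorem main {X D G B : Type*} [MetricSpace X] [CompactSpace X] [Infinite X] [CStarAlgebra D]
    [PartialOrder D] [StarOrderedRing D] [IsSimpleRing D] [Group G] [MulAction G X]
    [ContinuousConstSMul G X] (hmin : ∀ x : X, Dense (MulAction.orbit G x))
    (al : G → X → (D ≃⋆ₐ[ℂ] D))
    (hps : Pseudoperiodic {β : D ≃⋆ₐ[ℂ] D | ∃ g x, β = al g x})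
    (α : G → (C(X, D) ≃⋆ₐ[ℂ] C(X, D)))
    (hα : ∀ g a x, α g a x = al g x (a (g⁻¹ • x)))
    [CStarAlgebra B] (π : C(X, D) →⋆ₐ[ℂ] B) (u : G →* unitary B)
    (hcov : ∀ g a, (u g : B) * π a * star (u g : B) = π (α g a))
    (a : C(X, D)) (ha : ∀ x, 0 ≤ a x) (hne : a ≠ 0) :
    ∃ f : C(X, ℝ), (∀ x, 0 ≤ f x) ∧ f ≠ 0 ∧ CuntzLE (π (scal f)) (π a) := by
  -- the point `x0`
  obtain ⟨x0, hx0⟩ : ∃ x, a x ≠ 0 := by
    by_contra h
    push Not at h
    exact hne (ContinuousMap.ext h)
  obtain ⟨k, d, η, hη, hd0, hdne, hd⟩ := sandwich (ha x0) hx0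
  obtain ⟨b, hb0, hbne, _, hb⟩ := hps d hd0 hdne
  obtain ⟨l, hl⟩ := full_sum hb0 hbne
  set r : Fin l.length → D := fun i => l[i] with hr
  have hsum : (2 : D) ≤ ∑ i, r i * b * star (r i) := by
    exact hl.trans (le_of_eq (Fin.sum_univ_fun_getElem l (fun r => r * b * star r)).symm)
  have hUo : IsOpen {y | ‖a y - a x0‖ < η} := isOpen_lt (by fun_prop) continuous_const
  obtain ⟨g, hg, hgne⟩ := exists_moves (ι := Fin l.length) hmin x0 hUo ⟨x0, by simpa using hη⟩
  set δ : ℝ := 1 / (∑ i, ‖r i‖ ^ 2 + 1) with hδ
  have hSpos : 0 < ∑ i, ‖r i‖ ^ 2 + 1 := by positivity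
  have hδpos : 0 < δ := by positivity
  have hs : ∀ i, ∃ s : D, ‖s * al (g i)⁻¹ x0 d * star s - b‖ < δ := fun i =>
    hb (al (g i)⁻¹ x0) ⟨_, _, rfl⟩ δ hδpos
  choose s hs using hs
  -- the function `c`
  set c : C(X, D) := ∑ i, ContinuousMap.const X (r i * s i) *
    α (g i)⁻¹ (ContinuousMap.const X k * a * ContinuousMap.const X (star k)) *
      ContinuousMap.const X (star (r i * s i)) with hc
  have hcx : ∀ x, c x = ∑ i, (r i * s i) * al (g i)⁻¹ x (k * a (g i • x) * star k) *
      star (r i * s i) := by
    intro x
    rw [hc, ContinuousMap.coe_sum, Finset.sum_apply]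
    refine Finset.sum_congr rfl fun i _ => ?_
    simp only [ContinuousMap.mul_apply, ContinuousMap.const_apply, hα, inv_inv]
  have hasa : ∀ x, IsSelfAdjoint (a x) := fun x => IsSelfAdjoint.of_nonneg (ha x)
  have hcsa : ∀ x, IsSelfAdjoint (c x) := by
    intro x
    rw [hcx]
    refine isSelfAdjoint_sum _ fun i _ => ?_
    have h1 : IsSelfAdjoint (k * a (g i • x) * star k) := (hasa _).conjugate k
    have h2 : IsSelfAdjoint (al (g i)⁻¹ x (k * a (g i • x) * star k)) := h1.map _
    exact h2.conjugate _
  have hc1 : (1 : D) ≤ c x0 := by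
    have h1 : ∑ i, (r i * s i) * al (g i)⁻¹ x0 d * star (r i * s i) ≤ c x0 := by
      rw [hcx]
      refine Finset.sum_le_sum fun i _ => ?_
      refine conj_mono ?_ _
      have h2 : d ≤ k * a (g i • x0) * star k := hd _ (ha _) (le_of_lt (hg i))
      exact (OrderHomClass.mono (al (g i)⁻¹ x0)) h2
    have h3 : ‖∑ i, (r i * s i) * al (g i)⁻¹ x0 d * star (r i * s i) -
        ∑ i, r i * b * star (r i)‖ ≤ 1 := by
      rw [← Finset.sum_sub_distrib]
      refine (norm_sum_le _ _).trans ?_
      have h4 : ∀ i, ‖(r i * s i) * al (g i)⁻¹ x0 d * star (r i * s i) -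
          r i * b * star (r i)‖ ≤ ‖r i‖ ^ 2 * δ := by
        intro i
        have e : (r i * s i) * al (g i)⁻¹ x0 d * star (r i * s i) - r i * b * star (r i) =
            r i * (s i * al (g i)⁻¹ x0 d * star (s i) - b) * star (r i) := by
          rw [star_mul]; noncomm_ring
        rw [e]
        calc ‖r i * (s i * al (g i)⁻¹ x0 d * star (s i) - b) * star (r i)‖
            ≤ ‖r i‖ * ‖s i * al (g i)⁻¹ x0 d * star (s i) - b‖ * ‖star (r i)‖ :=
              norm_mul₃_le
          _ ≤ ‖r i‖ * δ * ‖star (r i)‖ := by
              gcongr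
              exact (hs i).le
          _ = ‖r i‖ ^ 2 * δ := by rw [norm_star]; ring
      refine (Finset.sum_le_sum fun i _ => h4 i).trans ?_
      rw [← Finset.sum_mul, hδ, mul_one_div, div_le_one hSpos]
      linarith
    have h5 : IsSelfAdjoint (∑ i, r i * b * star (r i)) :=
      isSelfAdjoint_sum _ fun i _ => (IsSelfAdjoint.of_nonneg hb0).conjugate _
    have h6 : IsSelfAdjoint (∑ i, (r i * s i) * al (g i)⁻¹ x0 d * star (r i * s i)) :=
      isSelfAdjoint_sum _ fun i _ =>
        ((IsSelfAdjoint.of_nonneg hd0).map (al (g i)⁻¹ x0)).conjugate _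
    have h7 := ge_sub_norm h5 h6 h3
    have h8 : (1 : D) ≤ ∑ i, r i * b * star (r i) - algebraMap ℝ D 1 := by
      rw [map_one, le_sub_iff_add_le, one_add_one_eq_two]
      exact hsum
    exact h8.trans (h7.trans h1)
  obtain ⟨q, hq⟩ := normalise hc1
  set c' : C(X, D) := ContinuousMap.const X q * c * ContinuousMap.const X (star q) with hc'
  have hc'x : ∀ x, c' x = q * c x * star q := fun x => rfl
  have hc'1 : c' x0 = 1 := by rw [hc'x, hq]
  -- the radius
  have hev1 : ∀ᶠ x in 𝓝 x0, ‖c' x - 1‖ < 1 / 2 := by
    have hcont : Continuous (fun x => ‖c' x - 1‖) := by fun_prop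
    have := hcont.tendsto' x0 0 (by rw [hc'1]; simp)
    exact this.eventually_lt_const (by norm_num)
  have hev2 : ∀ᶠ p in 𝓝 (x0, x0), ∀ i j, i ≠ j → g i • p.1 ≠ g j • p.2 := by
    rw [eventually_all]
    intro i
    rw [eventually_all]
    intro j
    rw [eventually_imp_distrib_left]
    intro hij
    have ho : IsOpen {p : X × X | g i • p.1 ≠ g j • p.2} :=
      isOpen_ne_fun (by fun_prop) (by fun_prop)
    exact ho.mem_nhds (hgne i j hij)
  obtain ⟨ε1, hε1, h1⟩ := Metric.eventually_nhds_iff.1 hev1
  obtain ⟨ε2, hε2, h2⟩ := Metric.eventually_nhds_iff.1 hev2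
  set e : ℝ := min ε1 ε2 / 2 with he
  have hepos : 0 < e := by positivity
  have h1' : ∀ x, dist x x0 < 2 * e → ‖c' x - 1‖ < 1 / 2 := fun x hx =>
    h1 (lt_of_lt_of_le hx (by rw [he]; linarith [min_le_left ε1 ε2]))
  have h2' : ∀ x y, dist x x0 < e → dist y x0 < e → ∀ i j, i ≠ j → g i • x ≠ g j • y := by
    intro x y hx hy
    refine h2 (y := (x, y)) ?_
    rw [Prod.dist_eq]
    have : e < ε2 := by rw [he]; linarith [min_le_right ε1 ε2, lt_min hε1 hε2]
    exact max_lt (hx.trans this) (hy.trans this)
  -- the cut-off functions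
  let ρ : C(X, ℝ) := ⟨fun x => max 0 (e - dist x x0), by fun_prop⟩
  let θ : C(X, ℝ) := ⟨fun x => min 1 (max 0 (2 - dist x x0 / e)), by fun_prop⟩
  have hρ : ∀ x, ρ x ≠ 0 → dist x x0 < e := by
    intro x hx
    by_contra h
    apply hx
    show max 0 (e - dist x x0) = 0
    exact max_eq_left (by linarith)
  have hθ0 : ∀ x, 0 ≤ θ x := fun x => le_min zero_le_one (le_max_left _ _)
  have hθ1 : ∀ x, θ x ≤ 1 := fun x => min_le_left _ _
  have hθ2 : ∀ x, ¬ dist x x0 < 2 * e → θ x = 0 := by
    intro x hx
    have h3 : 2 ≤ dist x x0 / e := by rw [le_div_iff₀ hepos]; linarith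
    show min 1 (max 0 (2 - dist x x0 / e)) = 0
    rw [max_eq_left (by linarith)]
    exact min_eq_right zero_le_one
  have hθ3 : ∀ x, dist x x0 < e → θ x = 1 := by
    intro x hx
    have h3 : dist x x0 / e ≤ 1 := by rw [div_le_one hepos]; exact hx.le
    show min 1 (max 0 (2 - dist x x0 / e)) = 1
    rw [max_eq_right (by linarith)]
    exact min_eq_left (by linarith)
  set ct : C(X, D) := 1 + scal θ * (c' - 1) with hct
  have hctx : ∀ x, ct x = 1 + θ x • (c' x - 1) := by
    intro x
    simp only [hct, ContinuousMap.add_apply, ContinuousMap.one_apply, ContinuousMap.mul_apply,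
      scal_apply, ContinuousMap.sub_apply]
    rw [Algebra.smul_def]
  have hc'sa : ∀ x, IsSelfAdjoint (c' x) := fun x => by
    rw [hc'x]; exact (hcsa x).conjugate q
  have hctsa : IsSelfAdjoint ct := by
    refine ContinuousMap.ext fun x => ?_
    rw [ContinuousMap.star_apply, hctx]
    have h3 : IsSelfAdjoint (θ x • (c' x - 1)) :=
      (IsSelfAdjoint.all (θ x)).smul ((hc'sa x).sub (IsSelfAdjoint.one D))
    exact ((IsSelfAdjoint.one D).add h3).star_eq
  have hctn : ‖ct - 1‖ ≤ 1 / 2 := by
    refine (ContinuousMap.norm_le _ (by norm_num)).2 fun x => ?_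
    rw [ContinuousMap.sub_apply, hctx, ContinuousMap.one_apply, add_sub_cancel_left, norm_smul,
      Real.norm_eq_abs, abs_of_nonneg (hθ0 x)]
    by_cases hx : dist x x0 < 2 * e
    · calc θ x * ‖c' x - 1‖ ≤ 1 * (1 / 2) :=
            mul_le_mul (hθ1 x) (h1' x hx).le (norm_nonneg _) zero_le_one
        _ = 1 / 2 := one_mul _
    · rw [hθ2 x hx, zero_mul]; norm_num
  obtain ⟨w, hw⟩ := normalise' hctsa hctn
  let f : C(X, ℝ) := ⟨fun x => ρ x ^ 2, by fun_prop⟩
  refine ⟨f, fun x => sq_nonneg _, ?_, ?_⟩
  · intro hf
    have h3 : f x0 = 0 := by rw [hf]; rfl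
    have h4 : f x0 = (max 0 (e - dist x0 x0)) ^ 2 := rfl
    rw [h4, dist_self, sub_zero, max_eq_right hepos.le] at h3
    exact absurd h3 (by positivity)
  · let F : Fin l.length → C(X, ℝ) := fun i => ⟨fun y => ρ ((g i)⁻¹ • y), by fun_prop⟩
    have hFx : ∀ i x, F i x = ρ ((g i)⁻¹ • x) := fun _ _ => rfl
    set S : Fin l.length → B := fun i => π (ContinuousMap.const X (r i * s i)) *
      star (u (g i) : B) * π (ContinuousMap.const X k * scal (F i)) with hS
    have huinv : ∀ (h : G) (y : C(X, D)), star (u h : B) * π y * (u h : B) = π (α h⁻¹ y) := by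
      intro h y
      have h3 := hcov h⁻¹ y
      rw [map_inv] at h3
      have h4 : ((u h)⁻¹ : unitary B) = star (u h) := rfl
      rw [h4, Unitary.coe_star, star_star] at h3
      exact h3
    have hSS : ∀ i j, S i * π a * star (S j) = if i = j then
        π (ContinuousMap.const X (r i * s i) *
          α (g i)⁻¹ (ContinuousMap.const X k * scal (F i) * a * (scal (F i) *
            ContinuousMap.const X (star k))) * ContinuousMap.const X (star (r i * s i)))
        else 0 := by
      intro i j
      have e1 : S i * π a * star (S j) = π (ContinuousMap.const X (r i * s i)) *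
          (star (u (g i) : B) * π (ContinuousMap.const X k * scal (F i) * a * (scal (F j) *
            ContinuousMap.const X (star k))) * (u (g j) : B)) *
              π (ContinuousMap.const X (star (r j * s j))) := by
        have e2 : star (ContinuousMap.const X (r j * s j)) =
          ContinuousMap.const X (star (r j * s j)) := rfl
        have e3 : star (ContinuousMap.const X k) = ContinuousMap.const X (star k) := rfl
        simp only [hS, star_mul, star_star, ← map_star, map_mul]
        rw [← star_mul, e2, e3, scal_star]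
        simp only [mul_assoc]
      rw [e1]
      split_ifs with hij
      · subst hij
        rw [huinv, ← map_mul, ← map_mul]
      · have e4 : ContinuousMap.const X k * scal (F i) * a * (scal (F j) *
            ContinuousMap.const X (star k)) = 0 := by
          ext x
          simp only [ContinuousMap.mul_apply, scal_apply, ContinuousMap.const_apply,
            ContinuousMap.zero_apply, hFx]
          by_cases hx : ρ ((g i)⁻¹ • x) = 0
          · rw [hx]; simp
          · by_cases hy : ρ ((g j)⁻¹ • x) = 0
            · rw [hy]; simp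
            · exfalso
              refine h2' _ _ (hρ _ hx) (hρ _ hy) i j hij ?_
              rw [smul_inv_smul, smul_inv_smul]
        rw [e4, map_zero]
        simp
    have hdiag : ∀ i, ContinuousMap.const X (r i * s i) *
          α (g i)⁻¹ (ContinuousMap.const X k * scal (F i) * a * (scal (F i) *
            ContinuousMap.const X (star k))) * ContinuousMap.const X (star (r i * s i)) =
        scal f * (ContinuousMap.const X (r i * s i) *
    α (g i)⁻¹ (ContinuousMap.const X k * a * ContinuousMap.const X (star k)) *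
      ContinuousMap.const X (star (r i * s i))) := by
      intro i
      ext x
      have e5 : f x = ρ x * ρ x := by
        show ρ x ^ 2 = _
        ring
      simp only [ContinuousMap.mul_apply, scal_apply, ContinuousMap.const_apply, hα, hFx, inv_inv,
        inv_smul_smul, e5]
      have e6 : k * (algebraMap ℝ D) (ρ x) * a (g i • x) *
          ((algebraMap ℝ D) (ρ x) * star k) =
          (ρ x * ρ x) • (k * a (g i • x) * star k) := by
        have hz : ∀ y : D, algebraMap ℝ D (ρ x) * y = y * algebraMap ℝ D (ρ x) :=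
          fun y => Algebra.commutes _ _
        calc k * (algebraMap ℝ D) (ρ x) * a (g i • x) * ((algebraMap ℝ D) (ρ x) * star k)
            = (k * algebraMap ℝ D (ρ x)) * (a (g i • x) * algebraMap ℝ D (ρ x)) * star k := by
              simp only [mul_assoc]
          _ = (algebraMap ℝ D (ρ x) * k) * (algebraMap ℝ D (ρ x) * a (g i • x)) * star k := by
              rw [← hz k, ← hz (a (g i • x))]
          _ = algebraMap ℝ D (ρ x) * (k * algebraMap ℝ D (ρ x)) * a (g i • x) * star k := by
              simp only [mul_assoc]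
          _ = algebraMap ℝ D (ρ x) * (algebraMap ℝ D (ρ x) * k) * a (g i • x) * star k := by
              rw [← hz k]
          _ = (ρ x * ρ x) • (k * a (g i • x) * star k) := by
              rw [Algebra.smul_def, map_mul]
              simp only [mul_assoc]
      have e7 : ∀ (t : ℝ) (y : D), al (g i)⁻¹ x (t • y) = t • al (g i)⁻¹ x y := by
        intro t y
        have := map_smul (al (g i)⁻¹ x) (t : ℂ) y
        simpa [Complex.coe_smul] using this
      rw [e6, e7, Algebra.smul_def]
      simp only [mul_assoc]
      rw [← mul_assoc (r i), ← mul_assoc (r i)]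
      rw [← mul_assoc (r i * s i), ← Algebra.commutes (ρ x * ρ x) (r i * s i)]
      simp only [mul_assoc]
    have hsumS : (∑ i, S i) * π a * star (∑ i, S i) = π (scal f * c) := by
      rw [star_sum, Finset.sum_mul, Finset.sum_mul]
      have e8 : ∀ i, S i * π a * ∑ j, star (S j) = π (scal f *
          (ContinuousMap.const X (r i * s i) *
    α (g i)⁻¹ (ContinuousMap.const X k * a * ContinuousMap.const X (star k)) *
      ContinuousMap.const X (star (r i * s i)))) := by
        intro i
        rw [Finset.mul_sum]
        simp only [hSS]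
        rw [Finset.sum_ite_eq, if_pos (Finset.mem_univ i), hdiag]
      simp only [e8]
      rw [← map_sum, ← Finset.mul_sum]
    have hfin : w * ContinuousMap.const X q * (scal f * c) * star (w * ContinuousMap.const X q) =
        scal f := by
      have e9 : w * ContinuousMap.const X q * (scal f * c) * star (w * ContinuousMap.const X q) =
          scal f * (w * ct * star w) := by
        ext x
        have e10 : (star (w * ContinuousMap.const X q)) x = star q * star (w x) := by
          rw [ContinuousMap.star_apply, ContinuousMap.mul_apply, star_mul]; rfl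
        simp only [ContinuousMap.mul_apply, scal_apply, ContinuousMap.const_apply, e10,
          ContinuousMap.star_apply]
        by_cases hx : ρ x = 0
        · have : f x = 0 := by
            show ρ x ^ 2 = 0
            rw [hx]; ring
          rw [this]; simp
        · have e11 : ct x = q * c x * star q := by
            rw [hctx, hθ3 x (hρ x hx), one_smul, hc'x]; abel
          rw [e11]
          have e12 := Algebra.commutes (f x) (w x * q)
          calc w x * q * (algebraMap ℝ D (f x) * c x) * (star q * star (w x))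
              = (w x * q * algebraMap ℝ D (f x)) * c x * (star q * star (w x)) := by
                simp only [mul_assoc]
            _ = (algebraMap ℝ D (f x) * (w x * q)) * c x * (star q * star (w x)) := by rw [e12]
            _ = algebraMap ℝ D (f x) * (w x * (q * c x * star q) * star (w x)) := by
                simp only [mul_assoc]
      rw [e9, hw, mul_one]
    intro ε hε
    refine ⟨π (w * ContinuousMap.const X q) * ∑ i, S i, ?_⟩
    have e13 : π (w * ContinuousMap.const X q) * (∑ i, S i) * π a *
        star (π (w * ContinuousMap.const X q) * ∑ i, S i) =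
        π (w * ContinuousMap.const X q) * ((∑ i, S i) * π a * star (∑ i, S i)) *
          π (star (w * ContinuousMap.const X q)) := by
      rw [star_mul, map_star]
      simp only [mul_assoc]
    rw [e13, hsumS, ← map_mul, ← map_mul, hfin, sub_self, norm_zero]
    exact hε

end Pool.Agent.Q191.CZ
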